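import Pool.Agent.Work.MP_30cf1a_an.Defs
import Pool.Agent.Work.MP_30cf1a_an.Upper
import Pool.Agent.Work.MP_30cf1a_an.Lower3

set_option autoImplicit false

/-!
# The value of `k(n)` is two for every `n ≥ 3`
-/

namespace Pool.Agent.Results.MP_30cf1a_an.KEqTwo

open Pool.Agent.Proj

/-- For every `n ≥ 3`, the largest `k ≤ n - 1` such that every extremal `n`-dimensional normed
space has a `k`-dimensional one-complemented subspace equals `2`. -/
theorem result : ∀ n : ℕ, 3 ≤ n → IsGreatest (kSet n) 2 := by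
  intro n hn
  refine ⟨⟨by omega, ?_⟩, ?_⟩
  · intro X i1 i2 hX
    exact exists_two_dim hn hX
  · rintro k ⟨hk, hk2⟩
    by_contra hlt
    push Not at hlt
    obtain ⟨X, i1, i2, hX, hno⟩ := exists_extremal hn
    obtain ⟨Z, hZ, hZ1⟩ := hk2 X hX
    exact hno Z (by omega) (by omega) hZ1

end Pool.Agent.Results.MP_30cf1a_an.KEqTwo
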